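import Mathlib
import Pool.Agent.LeoD.TowStmts
import Pool.Agent.Helper69_LeoD.Qtr

/-!
# QTRT: transfer of the layers of the cyclotomic extension from quartic fields to quadratic
extensions of a real quadratic field (squad LEOD)
-/

set_option autoImplicit false

open NumberField NumberField.InfinitePlace NumberField.mixedEmbedding IsDedekindDomain Module
  MeasureTheory Filter Topology
open Pool.Agent.Helper85_Leo Pool.Agent.LeoK Pool.Agent.LeoG Pool.Agent.LeoC

open scoped Classical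

namespace Pool.Agent.LeoD.H90

/-- The field generated over `k` by the roots of unity of order `3 ^ n`. -/
noncomputable def cyF (k : IntermediateField ℚ (AlgebraicClosure ℚ)) (n : ℕ) :
    IntermediateField k (AlgebraicClosure ℚ) :=
  IntermediateField.adjoin k
    {x : AlgebraicClosure ℚ | ∃ m ∈ ({3 ^ n} : Set ℕ), m ≠ 0 ∧ x ^ m = 1}

theorem mem_cyF (k : IntermediateField ℚ (AlgebraicClosure ℚ)) {x : AlgebraicClosure ℚ}
    (hx : x ∈ mu3) : ∃ n : ℕ, ∀ m : ℕ, n ≤ m → x ∈ cyF k m := by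
  unfold mu3 at hx
  induction hx using IntermediateField.adjoin_induction with
  | mem x hx =>
    obtain ⟨n, hn⟩ := hx
    refine ⟨n, fun m hm => ?_⟩
    apply IntermediateField.subset_adjoin
    refine ⟨3 ^ m, rfl, pow_ne_zero _ (by norm_num), ?_⟩
    obtain ⟨d, rfl⟩ := Nat.exists_eq_add_of_le hm
    rw [pow_add, pow_mul, hn, one_pow]
  | algebraMap x =>
    refine ⟨0, fun m _ => ?_⟩
    have h : algebraMap ℚ (AlgebraicClosure ℚ) x =
        algebraMap k (AlgebraicClosure ℚ) (algebraMap ℚ k x) :=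
      IsScalarTower.algebraMap_apply ℚ k (AlgebraicClosure ℚ) x
    rw [h]
    exact (cyF k m).algebraMap_mem _
  | add x y _ _ hx hy =>
    obtain ⟨a, ha⟩ := hx
    obtain ⟨b, hb⟩ := hy
    exact ⟨max a b, fun m hm => add_mem (ha m (le_trans (le_max_left _ _) hm))
      (hb m (le_trans (le_max_right _ _) hm))⟩
  | inv x _ hx =>
    obtain ⟨a, ha⟩ := hx
    exact ⟨a, fun m hm => inv_mem (ha m hm)⟩
  | mul x y _ _ hx hy =>
    obtain ⟨a, ha⟩ := hx
    obtain ⟨b, hb⟩ := hy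
    exact ⟨max a b, fun m hm => mul_mem (ha m (le_trans (le_max_left _ _) hm))
      (hb m (le_trans (le_max_right _ _) hm))⟩

theorem le_cyF (k M : IntermediateField ℚ (AlgebraicClosure ℚ)) (hM : M ≤ mu3)
    (hf : finrank ℚ M ≠ 0) : ∃ n : ℕ, ∀ x ∈ M, x ∈ cyF k n := by
  have hfd : FiniteDimensional ℚ M := FiniteDimensional.of_finrank_pos (Nat.pos_of_ne_zero hf)
  let b := Module.finBasis ℚ M
  have h1 : ∀ i, ∃ n : ℕ, ∀ m : ℕ, n ≤ m → ((b i : M) : AlgebraicClosure ℚ) ∈ cyF k m :=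
    fun i => mem_cyF k (hM (b i).2)
  choose f hf' using h1
  refine ⟨Finset.univ.sup f, fun x hx => ?_⟩
  have h2 : (x : AlgebraicClosure ℚ) = ∑ i, algebraMap ℚ (AlgebraicClosure ℚ)
      (b.repr ⟨x, hx⟩ i) * ((b i : M) : AlgebraicClosure ℚ) := by
    have h3 := congrArg (fun t : M => (t : AlgebraicClosure ℚ)) (b.sum_repr ⟨x, hx⟩)
    simp only [IntermediateField.coe_sum] at h3
    refine h3.symm.trans (Finset.sum_congr rfl fun i _ => ?_)
    rw [← Algebra.smul_def]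
    rfl
  rw [h2]
  refine sum_mem fun i _ => mul_mem ?_ (hf' i _ (Finset.le_sup (Finset.mem_univ i)))
  have h : algebraMap ℚ (AlgebraicClosure ℚ) (b.repr ⟨x, hx⟩ i) =
      algebraMap k (AlgebraicClosure ℚ) (algebraMap ℚ k (b.repr ⟨x, hx⟩ i)) :=
    IsScalarTower.algebraMap_apply ℚ k (AlgebraicClosure ℚ) _
  rw [h]
  exact (cyF k _).algebraMap_mem _

/-- Degrees. -/
theorem fr_sup {A B : IntermediateField ℚ (AlgebraicClosure ℚ)}
    (h : (finrank ℚ A).Coprime (finrank ℚ B)) :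
    finrank ℚ ↥(A ⊔ B) = finrank ℚ A * finrank ℚ B :=
  (IntermediateField.LinearDisjoint.of_finrank_coprime h).finrank_sup

theorem qtrt : QtrtStmt := by
  intro k hN hk2 hkr hlk X hfin
  have ha := H69.algQ
  have hcl : IsAlgClosure k (AlgebraicClosure ℚ) :=
    ⟨inferInstance, Algebra.IsAlgebraic.tower_top (K := ℚ) k⟩
  let e : AlgebraicClosure k ≃ₐ[k] AlgebraicClosure ℚ :=
    IsAlgClosure.equiv k (AlgebraicClosure k) (AlgebraicClosure ℚ)
  have hfin2 : {K | K ∈ Qx k ∅ X ∧ ∃ _ : NumberField K, ¬ GoodT k K}.Finite :=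
    hfin.subset fun K hK => hK.1
  have hsub : {K | K ∈ Q4x X ∧ k ≤ K ∧ ¬ LeoCyc K} ⊆
      H69.tr e '' {K | K ∈ Qx k ∅ X ∧ ∃ _ : NumberField K, ¬ GoodT k K} := by
    rintro K ⟨hK, hkK, hl⟩
    obtain ⟨L, rfl⟩ := H69.tr_surj e hkK
    refine ⟨L, ⟨(H69.mem_iff e hk2 hkr X L).2 hK, ?_⟩, rfl⟩
    obtain ⟨hNL, hq, hd⟩ := (H69.mem_iff e hk2 hkr X L).2 hK
    refine ⟨hNL, fun hG => hl ?_⟩
    obtain ⟨hNK, hK4, -⟩ := hK
    intro M j hNM hM hMj
    have hM0 : finrank ℚ M ≠ 0 := by rw [hMj]; positivity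
    have hfM : FiniteDimensional ℚ M := FiniteDimensional.of_finrank_pos (Nat.pos_of_ne_zero hM0)
    have hfk : FiniteDimensional ℚ k := FiniteDimensional.of_finrank_pos (by rw [hk2]; norm_num)
    have hfkM : FiniteDimensional ℚ ↥(k ⊔ M) := IntermediateField.finiteDimensional_sup k M
    have hNkM : NumberField ↥(k ⊔ M) :=
      { to_charZero := inferInstance, to_finiteDimensional := hfkM }
    have hLk : LeopoldtAt ↥(k ⊔ M) 3 := hlk M j hNkM hM hMj
    have hc3 : ∀ a : ℕ, Nat.Coprime (2 ^ a) (3 ^ j) := fun a =>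
      Nat.Coprime.pow _ _ (by norm_num)
    have hd1 : finrank ℚ ↥(k ⊔ M) = 2 * 3 ^ j := by
      rw [fr_sup, hk2, hMj]
      rw [hk2, hMj]
      exact hc3 1
    have hd2 : finrank ℚ ↥(H69.tr e L ⊔ M) = 4 * 3 ^ j := by
      rw [fr_sup, hK4, hMj]
      rw [hK4, hMj]
      exact hc3 2
    -- algebras
    have l1 : k ≤ k ⊔ M := le_sup_left
    have l2 : H69.tr e L ≤ H69.tr e L ⊔ M := le_sup_left
    have l3 : k ⊔ M ≤ H69.tr e L ⊔ M := sup_le_sup_right hkK M
    letI a1 : Algebra k ↥(k ⊔ M) := (IntermediateField.inclusion l1).toRingHom.toAlgebra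
    letI a2 : Algebra k ↥(H69.tr e L ⊔ M) :=
      (IntermediateField.inclusion (l1.trans l3)).toRingHom.toAlgebra
    letI a3 : Algebra L ↥(H69.tr e L ⊔ M) :=
      ((IntermediateField.inclusion l2).toRingHom.comp (H69.trE e L : L →+* H69.tr e L)).toAlgebra
    letI a4 : Algebra ↥(k ⊔ M) ↥(H69.tr e L ⊔ M) :=
      (IntermediateField.inclusion l3).toRingHom.toAlgebra
    have t1 : IsScalarTower k L ↥(H69.tr e L ⊔ M) := by
      refine IsScalarTower.of_algebraMap_eq fun x => ?_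
      apply Subtype.ext
      change (x : AlgebraicClosure ℚ) = e (algebraMap k (AlgebraicClosure k) x)
      rw [e.commutes]
      rfl
    have t2 : IsScalarTower k ↥(k ⊔ M) ↥(H69.tr e L ⊔ M) :=
      IsScalarTower.of_algebraMap_eq fun x => rfl
    have q1 : IsScalarTower ℚ k ↥(k ⊔ M) := IsScalarTower.of_algebraMap_eq fun x => rfl
    have q2 : IsScalarTower ℚ ↥(k ⊔ M) ↥(H69.tr e L ⊔ M) :=
      IsScalarTower.of_algebraMap_eq fun x => rfl
    have hm1 := Module.finrank_mul_finrank ℚ k ↥(k ⊔ M)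
    have hm2 := Module.finrank_mul_finrank ℚ ↥(k ⊔ M) ↥(H69.tr e L ⊔ M)
    rw [hk2, hd1] at hm1
    rw [hd1, hd2] at hm2
    obtain ⟨n, hn⟩ := le_cyF k M hM hM0
    refine hG.cyc ↥(k ⊔ M) ↥(H69.tr e L ⊔ M) n j ?_ ?_ ?_ hLk
    · obtain ⟨E⟩ := IsCyclotomicExtension.nonempty_algEquiv_adjoin_of_isSepClosed {3 ^ n} k
        (CyclotomicField (3 ^ n) k) (AlgebraicClosure ℚ)
      have hle : k ⊔ M ≤ (cyF k n).restrictScalars ℚ := by
        refine sup_le ?_ ?_
        · intro x hx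
          exact (cyF k n).algebraMap_mem ⟨x, hx⟩
        · intro x hx
          exact hn x hx
      let g : ↥(k ⊔ M) →ₐ[k] cyF k n :=
        { toFun := fun x => ⟨x, hle x.2⟩
          map_one' := rfl
          map_mul' := fun x y => rfl
          map_zero' := rfl
          map_add' := fun x y => rfl
          commutes' := fun x => rfl }
      have E2 : cyF k n →ₐ[k] CyclotomicField (3 ^ n) k := E.symm.toAlgHom
      exact ⟨E2.comp g⟩
    · exact Nat.eq_of_mul_eq_mul_left (by norm_num) hm1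
    · have h3 : 0 < 2 * 3 ^ j := by positivity
      apply Nat.eq_of_mul_eq_mul_left h3
      rw [hm2]
      ring
  calc {K | K ∈ Q4x X ∧ k ≤ K ∧ ¬ LeoCyc K}.ncard ≤
      (H69.tr e '' {K | K ∈ Qx k ∅ X ∧ ∃ _ : NumberField K, ¬ GoodT k K}).ncard :=
        Set.ncard_le_ncard hsub (hfin2.image _)
    _ ≤ _ := Set.ncard_image_le hfin2

end Pool.Agent.LeoD.H90
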