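import Pool.Agent.LeoD.FieldStmts

/-! Squad LEOD, module QUA: quadratic extensions in the algebraic closure. -/

set_option autoImplicit false

open NumberField Module IntermediateField

namespace Pool.Agent.LeoD.H90

open Pool.Agent.LeoD

lemma quad_span {k F : Type} [Field k] [Field F] [Algebra k F] {r : F} (hF : finrank k F = 2)
    (hr : ∀ x : k, algebraMap k F x ≠ r) (z : F) :
    ∃ a b : k, z = algebraMap k F a + algebraMap k F b * r := by
  have hli : LinearIndependent k ![(1 : F), r] := by
    rw [LinearIndependent.pair_iff]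
    intro s t hst
    rw [Algebra.smul_def, Algebra.smul_def, mul_one] at hst
    by_cases ht : t = 0
    · subst ht
      rw [map_zero, zero_mul, add_zero] at hst
      exact ⟨(map_eq_zero (algebraMap k F)).1 hst, rfl⟩
    · exfalso
      apply hr (-s / t)
      have ht' : algebraMap k F t ≠ 0 := (map_ne_zero (algebraMap k F)).2 ht
      rw [map_div₀, map_neg, div_eq_iff ht']
      linear_combination -hst
  have hfd : FiniteDimensional k F := FiniteDimensional.of_finrank_pos (by omega)
  have hsp := hli.span_eq_top_of_card_eq_finrank' (by rw [hF]; rfl)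
  have hz : z ∈ Submodule.span k (Set.range ![(1 : F), r]) := by rw [hsp]; trivial
  rw [Matrix.range_cons, Matrix.range_cons, Matrix.range_empty, Set.union_empty,
    Set.singleton_union, Submodule.mem_span_pair] at hz
  obtain ⟨a, b, hab⟩ := hz
  exact ⟨a, b, by rw [← hab, Algebra.smul_def, Algebra.smul_def, mul_one]⟩

lemma exists_root {k : Type} [Field k] (a : k) :
    ∃ r : AlgebraicClosure k, r ^ 2 = algebraMap k (AlgebraicClosure k) a :=
  IsAlgClosed.exists_pow_nat_eq _ (by norm_num)

lemma sqF_eq {k : Type} [Field k] {a : k} {r : AlgebraicClosure k}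
    (hr : r ^ 2 = algebraMap k (AlgebraicClosure k) a) : sqF a = k⟮r⟯ := by
  apply le_antisymm
  · unfold sqF
    rw [IntermediateField.adjoin_le_iff]
    intro y hy
    have hy' : y ^ 2 = algebraMap k (AlgebraicClosure k) a := hy
    rw [← hr] at hy'
    rcases sq_eq_sq_iff_eq_or_eq_neg.1 hy' with h | h
    · rw [h]
      exact mem_adjoin_simple_self k r
    · rw [h]
      exact neg_mem (mem_adjoin_simple_self k r)
  · rw [adjoin_simple_le_iff]
    exact subset_adjoin _ _ hr

lemma finrank_sqF {k : Type} [Field k] {a : k} (ha : ∀ x : k, x ^ 2 ≠ a) :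
    finrank k (sqF a) = 2 := by
  obtain ⟨r, hr⟩ := exists_root a
  rw [sqF_eq hr]
  have hirr : Irreducible (Polynomial.X ^ 2 - Polynomial.C a) :=
    X_pow_sub_C_irreducible_of_prime Nat.prime_two ha
  have hmon : (Polynomial.X ^ 2 - Polynomial.C a).Monic :=
    Polynomial.monic_X_pow_sub_C a (by norm_num)
  have hev : Polynomial.aeval r (Polynomial.X ^ 2 - Polynomial.C a) = 0 := by
    rw [map_sub, map_pow, Polynomial.aeval_X, Polynomial.aeval_C, hr, sub_self]
  have hmin := minpoly.eq_of_irreducible_of_monic hirr hev hmon
  have hint : IsIntegral k r := ⟨_, hmon, by rw [← Polynomial.aeval_def]; exact hev⟩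
  rw [IntermediateField.adjoin.finrank hint, ← hmin, Polynomial.natDegree_X_pow_sub_C]

lemma root_sqF {k : Type} [Field k] (a : k) :
    ∃ r : sqF a, r ^ 2 = algebraMap k (sqF a) a := by
  obtain ⟨r, hr⟩ := exists_root a
  have hmem : r ∈ sqF a := subset_adjoin _ _ hr
  refine ⟨⟨r, hmem⟩, ?_⟩
  apply Subtype.ext
  exact hr

theorem qua : QuaStmt := by
  intro k _ _
  refine ⟨?_, ?_, ?_⟩
  · intro K hK
    have hex : ∃ r : K, ∀ x : k, algebraMap k K x ≠ r := by
      by_contra hcon
      push Not at hcon
      have hb : Function.Bijective (Algebra.linearMap k K) :=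
        ⟨(algebraMap k K).injective, fun r => by
          obtain ⟨x, hx⟩ := hcon r
          exact ⟨x, hx⟩⟩
      have h1 := (LinearEquiv.ofBijective (Algebra.linearMap k K) hb).finrank_eq
      rw [hK, finrank_self] at h1
      omega
    obtain ⟨r, hr⟩ := hex
    obtain ⟨u, v, huv⟩ := quad_span hK hr (r ^ 2)
    have hs : (2 * r - algebraMap k K v) ^ 2 = algebraMap k K (4 * u + v ^ 2) := by
      rw [map_add, map_mul, map_pow, map_ofNat]
      linear_combination 4 * huv
    have h2 : (2 : k) ≠ 0 := two_ne_zero
    have hns : ∀ x : k, x ^ 2 ≠ 4 * u + v ^ 2 := by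
      intro x hx
      rw [← hx, map_pow] at hs
      have h2K : (2 : K) ≠ 0 := by
        have := (map_ne_zero (algebraMap k K)).2 h2
        rwa [map_ofNat] at this
      rcases sq_eq_sq_iff_eq_or_eq_neg.1 hs with h | h
      · apply hr ((x + v) / 2)
        rw [map_div₀, map_add, map_ofNat, div_eq_iff h2K]
        linear_combination -h
      · apply hr ((-x + v) / 2)
        rw [map_div₀, map_add, map_neg, map_ofNat, div_eq_iff h2K]
        linear_combination -h
    refine ⟨4 * u + v ^ 2, hns, ?_⟩
    have hfd : FiniteDimensional k K := FiniteDimensional.of_finrank_pos (by omega)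
    symm
    apply IntermediateField.eq_of_le_of_finrank_eq
    · have hs' : ((2 * r - algebraMap k K v : K) : AlgebraicClosure k) ^ 2 =
          algebraMap k (AlgebraicClosure k) (4 * u + v ^ 2) := by
        have := congrArg (fun z : K => (z : AlgebraicClosure k)) hs
        exact this
      rw [sqF_eq hs', adjoin_simple_le_iff]
      exact (2 * r - algebraMap k K v : K).2
    · rw [finrank_sqF hns, hK]
  · intro a ha
    have h2 := finrank_sqF ha
    have hfd : FiniteDimensional k (sqF a) := FiniteDimensional.of_finrank_pos (by omega)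
    exact ⟨NumberField.of_module_finite k (sqF a), h2, root_sqF a⟩
  · intro a a' ha ha'
    constructor
    · intro h
      have h2 := finrank_sqF ha
      obtain ⟨R, hR⟩ := root_sqF a
      obtain ⟨r', hr'⟩ := exists_root a'
      have hmem : r' ∈ sqF a := by
        rw [h]
        exact subset_adjoin _ _ hr'
      have hR' : (⟨r', hmem⟩ : sqF a) ^ 2 = algebraMap k (sqF a) a' := Subtype.ext hr'
      have hne : ∀ x : k, algebraMap k (sqF a) x ≠ R := by
        intro x hx
        apply ha x
        apply (algebraMap k (sqF a)).injective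
        rw [map_pow, hx, hR]
      obtain ⟨u, v, huv⟩ := quad_span h2 hne ⟨r', hmem⟩
      rw [huv] at hR'
      have h3 : algebraMap k (sqF a) (2 * u * v) * R =
          algebraMap k (sqF a) (a' - u ^ 2 - v ^ 2 * a) := by
        rw [map_sub, map_sub, map_mul, map_mul, map_mul, map_pow, map_pow, map_ofNat]
        linear_combination hR' - (algebraMap k (sqF a) v) ^ 2 * hR
      by_cases huv0 : 2 * u * v = 0
      · have h4 : a' - u ^ 2 - v ^ 2 * a = 0 := by
          rw [huv0, map_zero, zero_mul] at h3
          exact (map_eq_zero (algebraMap k (sqF a))).1 h3.symm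
        have h5 : u = 0 ∨ v = 0 := by
          rcases mul_eq_zero.1 huv0 with h | h
          · rcases mul_eq_zero.1 h with h | h
            · exact absurd h two_ne_zero
            · exact Or.inl h
          · exact Or.inr h
        rcases h5 with h5 | h5
        · refine ⟨v, ?_⟩
          rw [h5] at h4
          linear_combination h4
        · exfalso
          apply ha' u
          rw [h5] at h4
          linear_combination -h4
      · exfalso
        apply hne ((a' - u ^ 2 - v ^ 2 * a) / (2 * u * v))
        have h6 : algebraMap k (sqF a) (2 * u * v) ≠ 0 := (map_ne_zero _).2 huv0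
        rw [map_div₀, div_eq_iff h6, mul_comm R, h3]
    · rintro ⟨t, ht⟩
      have ht0 : t ≠ 0 := by
        rintro rfl
        apply ha' 0
        rw [ht]
        ring
      obtain ⟨r, hr⟩ := exists_root a
      have hr' : (algebraMap k (AlgebraicClosure k) t * r) ^ 2 =
          algebraMap k (AlgebraicClosure k) a' := by
        rw [mul_pow, hr, ht, map_mul, map_pow]
      have hfd : FiniteDimensional k (sqF a) :=
        FiniteDimensional.of_finrank_pos (by rw [finrank_sqF ha]; norm_num)
      symm
      apply IntermediateField.eq_of_le_of_finrank_eq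
      · rw [sqF_eq hr', adjoin_simple_le_iff]
        exact mul_mem ((sqF a).algebraMap_mem t) (subset_adjoin _ _ hr)
      · rw [finrank_sqF ha, finrank_sqF ha']

end Pool.Agent.LeoD.H90
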