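import Pool.Agent.Helper90_LeoD.Glc
import Pool.Agent.Helper87_LeoG.Idn

/-! ORB: the orbit of `h` modulo `p ^ M`. -/

set_option autoImplicit false

open NumberField IsDedekindDomain Module
open Pool.Agent.LeoK Pool.Agent.LeoG Pool.Agent.LeoC

namespace Pool.Agent.LeoD.H90

section

variable {A B : Type} [CommRing A] [CommRing B]

/-- the action commutes with ring homomorphisms -/
theorem gact_map (f : A →+* B) (v : Q4 A) (x y z w : A) (i : Fin 4) :
    f (gact v x y z w i) = gact (fun j => f (v j)) (f x) (f y) (f z) (f w) i := by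
  fin_cases i
  · change f (gact v x y z w 0) = gact _ _ _ _ _ 0
    rw [H87.gact_0, H87.gact_0]
    simp only [gval, map_add, map_mul, map_pow]
  · change f (gact v x y z w 1) = gact _ _ _ _ _ 1
    rw [H87.gact_1, H87.gact_1]
    simp only [map_add, map_mul, map_pow, map_ofNat]
  · change f (gact v x y z w 2) = gact _ _ _ _ _ 2
    rw [H87.gact_2, H87.gact_2]
    simp only [map_add, map_mul, map_pow, map_ofNat]
  · change f (gact v x y z w 3) = gact _ _ _ _ _ 3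
    rw [H87.gact_3, H87.gact_3]
    simp only [gval, map_add, map_mul, map_pow]

/-- the action is linear in the form -/
theorem gact_smul (c : A) (v : Q4 A) (x y z w : A) (i : Fin 4) :
    gact (fun j => c * v j) x y z w i = c * gact v x y z w i := by
  fin_cases i
  · change gact _ x y z w 0 = c * gact v x y z w 0
    rw [H87.gact_0, H87.gact_0]
    simp only [gval]
    ring
  · change gact _ x y z w 1 = c * gact v x y z w 1
    rw [H87.gact_1, H87.gact_1]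
    ring
  · change gact _ x y z w 2 = c * gact v x y z w 2
    rw [H87.gact_2, H87.gact_2]
    ring
  · change gact _ x y z w 3 = c * gact v x y z w 3
    rw [H87.gact_3, H87.gact_3]
    simp only [gval]
    ring

/-- the product of matrices -/
def mul4 (s g : Q4 A) : Q4 A :=
  ![s 0 * g 0 + s 1 * g 2, s 0 * g 1 + s 1 * g 3, s 2 * g 0 + s 3 * g 2, s 2 * g 1 + s 3 * g 3]

theorem det_mul4 (s g : Q4 A) : mul4 s g 0 * mul4 s g 3 - mul4 s g 1 * mul4 s g 2 =
    (s 0 * s 3 - s 1 * s 2) * (g 0 * g 3 - g 1 * g 2) := by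
  change (s 0 * g 0 + s 1 * g 2) * (s 2 * g 1 + s 3 * g 3) -
    (s 0 * g 1 + s 1 * g 3) * (s 2 * g 0 + s 3 * g 2) = _
  ring

theorem gact_mul4 (v s g : Q4 A) (i : Fin 4) :
    gact v (mul4 s g 0) (mul4 s g 1) (mul4 s g 2) (mul4 s g 3) i =
      gact (gact v (s 0) (s 1) (s 2) (s 3)) (g 0) (g 1) (g 2) (g 3) i := by
  rw [H87.gact_gact]
  rfl

theorem mul4_right_cancel {s t g : Q4 A} (hg : IsUnit (g 0 * g 3 - g 1 * g 2))
    (h : mul4 s g = mul4 t g) : s = t := by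
  have h0 : s 0 * g 0 + s 1 * g 2 = t 0 * g 0 + t 1 * g 2 := congrFun h 0
  have h1 : s 0 * g 1 + s 1 * g 3 = t 0 * g 1 + t 1 * g 3 := congrFun h 1
  have h2 : s 2 * g 0 + s 3 * g 2 = t 2 * g 0 + t 3 * g 2 := congrFun h 2
  have h3 : s 2 * g 1 + s 3 * g 3 = t 2 * g 1 + t 3 * g 3 := congrFun h 3
  funext i
  refine hg.mul_left_cancel ?_
  fin_cases i
  · change (g 0 * g 3 - g 1 * g 2) * s 0 = (g 0 * g 3 - g 1 * g 2) * t 0
    linear_combination g 3 * h0 - g 2 * h1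
  · change (g 0 * g 3 - g 1 * g 2) * s 1 = (g 0 * g 3 - g 1 * g 2) * t 1
    linear_combination g 0 * h1 - g 1 * h0
  · change (g 0 * g 3 - g 1 * g 2) * s 2 = (g 0 * g 3 - g 1 * g 2) * t 2
    linear_combination g 3 * h2 - g 2 * h3
  · change (g 0 * g 3 - g 1 * g 2) * s 3 = (g 0 * g 3 - g 1 * g 2) * t 3
    linear_combination g 0 * h3 - g 1 * h2

/-- the orbit and the stabiliser -/
theorem card_orbit_le [Finite A] (h : Q4 A) (O : Set (Q4 A))
    (hO : ∀ o ∈ O, ∃ g : Q4 A, IsUnit (g 0 * g 3 - g 1 * g 2) ∧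
      ∀ i, gact h (g 0) (g 1) (g 2) (g 3) i = (g 0 * g 3 - g 1 * g 2) * o i) :
    Nat.card {g : Q4 A // IsUnit (g 0 * g 3 - g 1 * g 2) ∧
        ∀ i, gact h (g 0) (g 1) (g 2) (g 3) i = (g 0 * g 3 - g 1 * g 2) * h i} * O.ncard ≤
      Nat.card {g : Q4 A // IsUnit (g 0 * g 3 - g 1 * g 2)} := by
  choose! c hc1 hc2 using hO
  have key : ∀ s : Q4 A, (∀ i, gact h (s 0) (s 1) (s 2) (s 3) i =
      (s 0 * s 3 - s 1 * s 2) * h i) → ∀ o ∈ O, ∀ i,
      gact h (mul4 s (c o) 0) (mul4 s (c o) 1) (mul4 s (c o) 2) (mul4 s (c o) 3) i =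
        (mul4 s (c o) 0 * mul4 s (c o) 3 - mul4 s (c o) 1 * mul4 s (c o) 2) * o i := by
    intro s hs o ho i
    rw [gact_mul4, det_mul4]
    have h1 : gact h (s 0) (s 1) (s 2) (s 3) = fun j => (s 0 * s 3 - s 1 * s 2) * h j := funext hs
    rw [h1, gact_smul, hc2 o ho i]
    ring
  rw [← Nat.card_coe_set_eq, ← Nat.card_prod]
  refine Nat.card_le_card_of_injective (fun x : {g : Q4 A // IsUnit (g 0 * g 3 - g 1 * g 2) ∧
        ∀ i, gact h (g 0) (g 1) (g 2) (g 3) i = (g 0 * g 3 - g 1 * g 2) * h i} × O =>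
      (⟨mul4 x.1.1 (c x.2.1), by
        rw [det_mul4]
        exact x.1.2.1.mul (hc1 _ x.2.2)⟩ : {g : Q4 A // IsUnit (g 0 * g 3 - g 1 * g 2)})) ?_
  rintro ⟨⟨s, hs⟩, ⟨o, ho⟩⟩ ⟨⟨t, ht⟩, ⟨o', ho'⟩⟩ heq
  have h1 : mul4 s (c o) = mul4 t (c o') := congrArg Subtype.val heq
  have h2 : o = o' := by
    funext i
    have hu : IsUnit (mul4 s (c o) 0 * mul4 s (c o) 3 - mul4 s (c o) 1 * mul4 s (c o) 2) := by
      rw [det_mul4]
      exact hs.1.mul (hc1 _ ho)
    refine hu.mul_left_cancel ?_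
    rw [← key s hs.2 o ho i, h1, ← key t ht.2 o' ho' i]
  subst h2
  have h3 := mul4_right_cancel (hc1 _ ho) h1
  subst h3
  rfl

end

variable {k : Type} [Field k] [NumberField k]

/-- ORB -/
theorem orb (stb : StbStmt) (glc : GlcStmt) : OrbStmt := by
  intro k _ _ p M h h3 hM hh
  have hM1 : 1 ≤ M := by
    have h1 : 0 < finrank ℚ k := finrank_pos
    omega
  have hne : p.asIdeal ^ M ≠ ⊥ := pow_ne_zero M p.ne_bot
  have hfM : Finite (𝓞 k ⧸ p.asIdeal ^ M) := Ideal.finiteQuotientOfFreeOfNeBot _ hne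
  rw [← glc k p M hM1]
  have h1 := stb k p M h h3 hM hh
  have h2 := card_orbit_le (modQ (p.asIdeal ^ M) h) (modQ (p.asIdeal ^ M) '' {F | InOrb p M h F})
    (by
      rintro _ ⟨F, ⟨x, y, z, w, hd, hF⟩, rfl⟩
      refine ⟨modQ (p.asIdeal ^ M) ![x, y, z, w], ?_, fun i => ?_⟩
      · change IsUnit (Ideal.Quotient.mk (p.asIdeal ^ M) x * Ideal.Quotient.mk (p.asIdeal ^ M) w -
          Ideal.Quotient.mk (p.asIdeal ^ M) y * Ideal.Quotient.mk (p.asIdeal ^ M) z)
        rw [← map_mul, ← map_mul, ← map_sub, isUnit_quot_iff p hM1]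
        exact hd
      · change gact (modQ (p.asIdeal ^ M) h) (Ideal.Quotient.mk (p.asIdeal ^ M) x)
          (Ideal.Quotient.mk (p.asIdeal ^ M) y) (Ideal.Quotient.mk (p.asIdeal ^ M) z)
          (Ideal.Quotient.mk (p.asIdeal ^ M) w) i =
          (Ideal.Quotient.mk (p.asIdeal ^ M) x * Ideal.Quotient.mk (p.asIdeal ^ M) w -
          Ideal.Quotient.mk (p.asIdeal ^ M) y * Ideal.Quotient.mk (p.asIdeal ^ M) z) *
            Ideal.Quotient.mk (p.asIdeal ^ M) (F i)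
        rw [← map_mul, ← map_mul, ← map_sub, ← map_mul]
        have h4 : Ideal.Quotient.mk (p.asIdeal ^ M) (gact h x y z w i) = _ :=
          gact_map (Ideal.Quotient.mk (p.asIdeal ^ M)) h x y z w i
        change gact (fun j => Ideal.Quotient.mk (p.asIdeal ^ M) (h j)) _ _ _ _ i = _
        rw [← h4]
        exact ((Ideal.Quotient.eq).2 (hF i)).symm)
  have h5 : (Nat.card {g : Q4 (𝓞 k ⧸ p.asIdeal ^ M) // IsUnit (g 0 * g 3 - g 1 * g 2) ∧
        ∀ i, gact (modQ _ h) (g 0) (g 1) (g 2) (g 3) i = (g 0 * g 3 - g 1 * g 2) * modQ _ h i} : ℝ) *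
      ((modQ (p.asIdeal ^ M) '' {F | InOrb p M h F}).ncard : ℝ) ≤
      (Nat.card {g : Q4 (𝓞 k ⧸ p.asIdeal ^ M) // IsUnit (g 0 * g 3 - g 1 * g 2)} : ℝ) := by
    exact_mod_cast h2
  exact (mul_le_mul_of_nonneg_right h1 (Nat.cast_nonneg _)).trans h5

end Pool.Agent.LeoD.H90
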