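import Pool.Agent.LeoD.LocStmts
import Pool.Agent.Helper11_LeoK.Den

/-! GLC: the number of invertible matrices modulo `p ^ M`. -/

set_option autoImplicit false

open NumberField IsDedekindDomain
open Pool.Agent.LeoK Pool.Agent.LeoG Pool.Agent.LeoC

namespace Pool.Agent.LeoD.H90

/-- The number of elements of the preimage of a set under an additive map. -/
theorem card_preimage {G H : Type} [AddCommGroup G] [AddCommGroup H] (F : G →+ H)
    (hF : Function.Surjective F) (W : Set H) :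
    Nat.card {g : G // F g ∈ W} = Nat.card W * Nat.card F.ker := by
  rw [← Nat.card_prod]
  refine Nat.card_congr
    { toFun := fun g => (⟨F g.1, g.2⟩, ⟨g.1 - Function.surjInv hF (F g.1), ?_⟩)
      invFun := fun hn => ⟨Function.surjInv hF hn.1.1 + hn.2.1, ?_⟩
      left_inv := ?_
      right_inv := ?_ }
  · rw [AddMonoidHom.mem_ker, map_sub, Function.surjInv_eq hF, sub_self]
  · have h1 : F hn.2.1 = 0 := hn.2.2
    rw [map_add, h1, add_zero, Function.surjInv_eq hF]
    exact hn.1.2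
  · rintro ⟨g, hg⟩
    apply Subtype.ext
    change Function.surjInv hF (F g) + (g - Function.surjInv hF (F g)) = g
    abel
  · rintro ⟨⟨h, hh⟩, ⟨n, hn⟩⟩
    have h1 : F n = 0 := hn
    have h2 : F (Function.surjInv hF h + n) = h := by
      rw [map_add, h1, add_zero, Function.surjInv_eq hF]
    refine Prod.ext (Subtype.ext h2) (Subtype.ext ?_)
    change Function.surjInv hF h + n - Function.surjInv hF (F (Function.surjInv hF h + n)) = n
    rw [h2]
    abel

theorem card_preimage' {G H : Type} [AddCommGroup G] [AddCommGroup H] (F : G →+ H)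
    (hF : Function.Surjective F) (W : Set H) :
    Nat.card {g : G // F g ∈ W} * Nat.card H = Nat.card G * Nat.card W := by
  have h1 : Nat.card G = Nat.card H * Nat.card F.ker := by
    have h2 := card_preimage F hF Set.univ
    rw [Nat.card_congr (Equiv.Set.univ H)] at h2
    rw [← h2]
    exact Nat.card_congr
      { toFun := fun g => ⟨g, Set.mem_univ _⟩
        invFun := fun g => g.1
        left_inv := fun g => rfl
        right_inv := fun g => rfl }
  rw [card_preimage F hF, h1]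
  ring

/-- quadruples and invertible matrices -/
theorem card_det {A : Type} [Field A] [Finite A] :
    (Nat.card {v : Q4 A // v 0 * v 3 - v 1 * v 2 ≠ 0} : ℝ) =
      (Nat.card A : ℝ) ^ 4 * (1 - 1 / (Nat.card A : ℝ)) * (1 - 1 / (Nat.card A : ℝ) ^ 2) := by
  classical
  have := Fintype.ofFinite A
  have hM : ∀ v : Q4 A, v 0 * v 3 - v 1 * v 2 ≠ 0 ↔
      (!![v 0, v 1; v 2, v 3] : Matrix (Fin 2) (Fin 2) A).det ≠ 0 := by
    intro v
    rw [Matrix.det_fin_two_of]
  have e : {v : Q4 A // v 0 * v 3 - v 1 * v 2 ≠ 0} ≃ Matrix.GeneralLinearGroup (Fin 2) A :=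
    { toFun := fun v => Matrix.GeneralLinearGroup.mkOfDetNeZero
        !![v.1 0, v.1 1; v.1 2, v.1 3] ((hM v.1).1 v.2)
      invFun := fun M => ⟨![M.1 0 0, M.1 0 1, M.1 1 0, M.1 1 1], (hM _).2 (by
        have h1 : (!![(![M.1 0 0, M.1 0 1, M.1 1 0, M.1 1 1] : Q4 A) 0,
            (![M.1 0 0, M.1 0 1, M.1 1 0, M.1 1 1] : Q4 A) 1;
            (![M.1 0 0, M.1 0 1, M.1 1 0, M.1 1 1] : Q4 A) 2,
            (![M.1 0 0, M.1 0 1, M.1 1 0, M.1 1 1] : Q4 A) 3] : Matrix (Fin 2) (Fin 2) A) =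
              M.1 := by
          ext i j
          fin_cases i <;> fin_cases j <;> rfl
        rw [h1]
        exact (Matrix.isUnits_det_units M).ne_zero)⟩
      left_inv := by
        rintro ⟨v, hv⟩
        apply Subtype.ext
        funext i
        fin_cases i <;> rfl
      right_inv := by
        intro M
        apply Units.ext
        ext i j
        fin_cases i <;> fin_cases j <;> rfl }
  rw [Nat.card_congr e, Matrix.card_GL_field]
  rw [Fin.prod_univ_two, Nat.card_eq_fintype_card]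
  have hq : 1 < Fintype.card A := Fintype.one_lt_card
  have hq0 : (Fintype.card A : ℝ) ≠ 0 := by positivity
  have h3 : Fintype.card A ≤ Fintype.card A ^ 2 := Nat.le_self_pow two_ne_zero _
  have h4 : 1 ≤ Fintype.card A ^ 2 := hq.le.trans h3
  simp only [Fin.val_zero, Fin.val_one, pow_zero, pow_one]
  rw [Nat.cast_mul, Nat.cast_sub h4, Nat.cast_sub h3]
  push_cast
  field_simp

variable {k : Type} [Field k] [NumberField k]

/-- units modulo a power of `p` -/
theorem isUnit_quot_iff (p : HeightOneSpectrum (𝓞 k)) {M : ℕ} (hM : 1 ≤ M) (x : 𝓞 k) :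
    IsUnit (Ideal.Quotient.mk (p.asIdeal ^ M) x) ↔ x ∉ p.asIdeal := by
  have hmax : p.asIdeal.IsMaximal := p.isPrime.isMaximal p.ne_bot
  constructor
  · intro h hx
    obtain ⟨b, hb⟩ := h.exists_right_inv
    obtain ⟨y, rfl⟩ := Ideal.Quotient.mk_surjective b
    rw [← map_mul, ← map_one (Ideal.Quotient.mk (p.asIdeal ^ M)), Ideal.Quotient.eq] at hb
    have h1 : x * y - 1 ∈ p.asIdeal := Ideal.pow_le_self (by omega) hb
    have h2 : x * y ∈ p.asIdeal := Ideal.mul_mem_right _ _ hx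
    have h3 : (1 : 𝓞 k) ∈ p.asIdeal := by
      have := p.asIdeal.sub_mem h2 h1
      rwa [sub_sub_cancel] at this
    exact hmax.ne_top ((Ideal.eq_top_iff_one _).2 h3)
  · intro hx
    obtain ⟨y, i, hi, h1⟩ := hmax.exists_inv hx
    have hco : IsCoprime (Ideal.span {x}) p.asIdeal :=
      Ideal.isCoprime_iff_exists.2 ⟨y * x, Ideal.mem_span_singleton'.2 ⟨y, rfl⟩, i, hi, h1⟩
    obtain ⟨a, ha, j, hj, h2⟩ := Ideal.isCoprime_iff_exists.1
      (IsCoprime.pow_right (n := M) hco)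
    obtain ⟨c, rfl⟩ := Ideal.mem_span_singleton'.1 ha
    refine IsUnit.of_mul_eq_one (Ideal.Quotient.mk (p.asIdeal ^ M) c) ?_
    rw [← map_mul, ← map_one (Ideal.Quotient.mk (p.asIdeal ^ M)), Ideal.Quotient.eq, ← h2]
    have h3 : x * c - (c * x + j) = -j := by ring
    rw [h3]
    exact Submodule.neg_mem _ hj

/-- GLC -/
theorem glc : GlcStmt := by
  intro k _ _ p M hM
  classical
  haveI hfp : Finite (𝓞 k ⧸ p.asIdeal) := Ideal.finiteQuotientOfFreeOfNeBot _ p.ne_bot
  haveI hmax : p.asIdeal.IsMaximal := p.isPrime.isMaximal p.ne_bot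
  have hne : p.asIdeal ^ M ≠ ⊥ := pow_ne_zero M p.ne_bot
  haveI hfM : Finite (𝓞 k ⧸ p.asIdeal ^ M) := Ideal.finiteQuotientOfFreeOfNeBot _ hne
  letI : Field (𝓞 k ⧸ p.asIdeal) := Ideal.Quotient.field p.asIdeal
  have hle : p.asIdeal ^ M ≤ p.asIdeal := Ideal.pow_le_self (by omega)
  obtain ⟨f, hf⟩ : ∃ f : (𝓞 k ⧸ p.asIdeal ^ M) →+* (𝓞 k ⧸ p.asIdeal),
      f = Ideal.Quotient.factor hle := ⟨_, rfl⟩
  have hfs : Function.Surjective f := by
    rw [hf]
    exact Ideal.Quotient.factor_surjective hle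
  have hfu : ∀ x, IsUnit x ↔ f x ≠ 0 := by
    intro x
    obtain ⟨x, rfl⟩ := Ideal.Quotient.mk_surjective x
    rw [isUnit_quot_iff p hM, hf, Ideal.Quotient.factor_mk, Ne, Ideal.Quotient.eq_zero_iff_mem]
  let F : Q4 (𝓞 k ⧸ p.asIdeal ^ M) →+ Q4 (𝓞 k ⧸ p.asIdeal) :=
    { toFun := fun w i => f (w i)
      map_zero' := by
        funext i
        exact map_zero f
      map_add' := fun x y => by
        funext i
        exact map_add f _ _ }
  have hF : Function.Surjective F := by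
    intro y
    choose x hx using fun i => hfs (y i)
    exact ⟨x, funext hx⟩
  have h1 := card_preimage' F hF {v | v 0 * v 3 - v 1 * v 2 ≠ 0}
  have h2 : Nat.card {g : Q4 (𝓞 k ⧸ p.asIdeal ^ M) // IsUnit (g 0 * g 3 - g 1 * g 2)} =
      Nat.card {g : Q4 (𝓞 k ⧸ p.asIdeal ^ M) //
        F g ∈ {v : Q4 (𝓞 k ⧸ p.asIdeal) | v 0 * v 3 - v 1 * v 2 ≠ 0}} := by
    refine Nat.card_congr (Equiv.subtypeEquivRight fun g => ?_)
    rw [hfu, map_sub, map_mul, map_mul]
    rfl
  have hq : Nat.card (𝓞 k ⧸ p.asIdeal) = Ideal.absNorm p.asIdeal := LeoK.H11.card_quot _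
  have hqM : Nat.card (𝓞 k ⧸ p.asIdeal ^ M) = Ideal.absNorm p.asIdeal ^ M := by
    rw [LeoK.H11.card_quot, map_pow]
  have h3 : (Nat.card {v : Q4 (𝓞 k ⧸ p.asIdeal) // v 0 * v 3 - v 1 * v 2 ≠ 0} : ℝ) =
      np p ^ 4 * (1 - 1 / np p) * (1 - 1 / np p ^ 2) := by
    rw [card_det, hq]
    rfl
  have h4 : (Nat.card {g : Q4 (𝓞 k ⧸ p.asIdeal ^ M) // IsUnit (g 0 * g 3 - g 1 * g 2)} : ℝ) *
      np p ^ 4 = np p ^ (4 * M) * (np p ^ 4 * (1 - 1 / np p) * (1 - 1 / np p ^ 2)) := by
    rw [← h3, h2]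
    have h5 : Nat.card (Q4 (𝓞 k ⧸ p.asIdeal)) = Ideal.absNorm p.asIdeal ^ 4 := by
      rw [Nat.card_pi]
      simp only [Finset.prod_const, Finset.card_univ, Fintype.card_fin, hq]
    have h6 : Nat.card (Q4 (𝓞 k ⧸ p.asIdeal ^ M)) = Ideal.absNorm p.asIdeal ^ (4 * M) := by
      rw [Nat.card_pi]
      simp only [Finset.prod_const, Finset.card_univ, Fintype.card_fin, hqM]
      rw [← pow_mul, mul_comm]
    rw [h5, h6] at h1
    unfold np
    exact_mod_cast h1
  have h0 : np p ≠ 0 := by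
    unfold np
    rw [Nat.cast_ne_zero, Ne, Ideal.absNorm_eq_zero_iff]
    exact p.ne_bot
  have h7 : np p ^ 4 ≠ 0 := pow_ne_zero _ h0
  refine mul_right_cancel₀ h7 ?_
  rw [h4]
  ring

end Pool.Agent.LeoD.H90
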