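import Pool.Agent.LeoD.LocStmts

/-! LDT: the density of the forms at the primes above 2. -/

set_option autoImplicit false

open NumberField IsDedekindDomain Module
open Pool.Agent.LeoK Pool.Agent.LeoG Pool.Agent.LeoC

namespace Pool.Agent.LeoD.H90

/-- LDT -/
theorem ldt (upc : UpcStmt) (u2f : U2fStmt) (bfn : BfnStmt) (vpi : VpiStmt) : LdtStmt := by
  intro k _ _ M h B E p h2
  have hne1 : (1 : 𝓞 k) ∉ p.asIdeal := fun h1 => p.isPrime.ne_top ((Ideal.eq_top_iff_one _).2 h1)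
  have h3 : (3 : 𝓞 k) ∉ p.asIdeal := by
    intro h3
    apply hne1
    have h4 := p.asIdeal.sub_mem h3 h2
    have h5 : (3 : 𝓞 k) - 2 = 1 := by norm_num
    rwa [h5] at h4
  have h6 : (6 : 𝓞 k) ∈ p.asIdeal := by
    have h4 := p.asIdeal.mul_mem_left (3 : 𝓞 k) h2
    have h5 : (3 : 𝓞 k) * 2 = 6 := by norm_num
    rwa [h5] at h4
  obtain ⟨hb0, hbb, hcc, -, hB, -⟩ := bfn k B
  obtain ⟨hb, hb1, hc1⟩ := hB p h6
  obtain ⟨v1, -⟩ := vpi k
  have hord : ∀ I : Ideal (𝓞 k), I ≠ ⊥ → ¬ I ≤ p.asIdeal → ordp p I = 0 := by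
    intro I hI hn
    by_contra h0
    apply hn
    have h7 := (v1 p I 1 hI).2 (by omega)
    rwa [pow_one] at h7
  have ho1 : ordp p B.bb = 0 := hord _ hbb hb1
  have ho2 : ordp p (Ideal.span {(3 : 𝓞 k)}) = 0 := by
    refine hord _ ?_ ?_
    · rw [Ne, Ideal.span_singleton_eq_bot]
      exact fun h => h3 (by rw [h]; exact p.asIdeal.zero_mem)
    · rw [Ideal.span_singleton_le_iff_mem]
      exact h3
  have ho3 : ordp p (Ideal.span {(B.b : 𝓞 k)}) = 0 := by
    refine hord _ ?_ ?_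
    · rw [Ne, Ideal.span_singleton_eq_bot]
      exact fun h => hb (by rw [h]; exact p.asIdeal.zero_mem)
    · rw [Ideal.span_singleton_le_iff_mem]
      exact hb
  refine ⟨2, modQ (p.asIdeal ^ 2) '' Up p, ?_, ?_⟩
  · intro F m _ hm hf _
    refine ⟨F, u2f k p B.cc F (3 ^ 4 * (B.b : 𝓞 k) ^ 3) m h2 hcc hc1 ?_ ?_ hf, rfl⟩
    · intro h
      rcases p.isPrime.mem_or_mem h with h | h
      · exact h3 (p.isPrime.mem_of_pow_mem _ h)
      · exact hb (p.isPrime.mem_of_pow_mem _ h)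
    · rw [hm]
      unfold BFr.kap
      push_cast
      ring
  · have h7 : dD B E p = (1 - 1 / np p ^ 2) ^ 2 := by
      unfold dD dE
      rw [if_neg h3, ho1, ho2, ho3]
      ring
    rw [h7]
    exact upc k p h2

end Pool.Agent.LeoD.H90
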