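import Pool.Agent.LeoD.QuarStmts
import Pool.Agent.Helper90_LeoD.Qua

/-! QRF: the real quadratic fields. -/

set_option autoImplicit false

open NumberField NumberField.InfinitePlace IsDedekindDomain Module

namespace Pool.Agent.LeoD.H90

section disc

variable {K : Type} [Field K] [NumberField K]

theorem li_one {s : K} (hr : ∀ x : ℚ, algebraMap ℚ K x ≠ s) :
    LinearIndependent ℚ ![(1 : K), s] := by
  rw [LinearIndependent.pair_iff]
  intro a t hst
  rw [Algebra.smul_def, Algebra.smul_def, mul_one] at hst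
  by_cases ht : t = 0
  · subst ht
    rw [map_zero, zero_mul, add_zero] at hst
    exact ⟨(map_eq_zero (algebraMap ℚ K)).1 hst, rfl⟩
  · exfalso
    apply hr (-a / t)
    have ht' : algebraMap ℚ K t ≠ 0 := (map_ne_zero (algebraMap ℚ K)).2 ht
    rw [map_div₀, map_neg, div_eq_iff ht']
    linear_combination -hst

theorem trace_root (hK : finrank ℚ K = 2) {s : K} (hr : ∀ x : ℚ, algebraMap ℚ K x ≠ s) {d : ℚ}
    (hs : s ^ 2 = algebraMap ℚ K d) : Algebra.trace ℚ K s = 0 := by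
  have hcard : Fintype.card (Fin 2) = finrank ℚ K := by rw [hK]; rfl
  obtain ⟨b, hb⟩ : ∃ b : Basis (Fin 2) ℚ K, (b : Fin 2 → K) = ![(1 : K), s] :=
    ⟨basisOfLinearIndependentOfCardEqFinrank (li_one hr) hcard,
      coe_basisOfLinearIndependentOfCardEqFinrank _ _⟩
  have hb0 : b 0 = 1 := by rw [hb]; rfl
  have hb1 : b 1 = s := by rw [hb]; rfl
  rw [Algebra.trace_eq_matrix_trace b s, Matrix.trace_fin_two, Algebra.leftMulMatrix_eq_repr_mul,
    Algebra.leftMulMatrix_eq_repr_mul]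
  have h0 : s * b 0 = b 1 := by rw [hb0, hb1, mul_one]
  have h1 : s * b 1 = d • b 0 := by
    rw [hb0, hb1, Algebra.smul_def, mul_one, ← hs, sq]
  rw [h0, h1, map_smul, Basis.repr_self, Basis.repr_self]
  simp

theorem discr_quad (hK : finrank ℚ K = 2) (d : ℕ) (s : 𝓞 K) (hs : s ^ 2 = (d : 𝓞 K))
    (hd : ∀ x : ℚ, x ^ 2 ≠ d) : ∃ f : ℤ, 4 * (d : ℤ) = f ^ 2 * discr K := by
  classical
  have hr : ∀ x : ℚ, algebraMap ℚ K x ≠ (s : K) := by
    intro x hx
    apply hd x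
    apply (algebraMap ℚ K).injective
    rw [map_pow, hx, map_natCast]
    have h1 := congrArg (fun z : 𝓞 K => (z : K)) hs
    simpa using h1
  have hs' : (s : K) ^ 2 = algebraMap ℚ K (d : ℚ) := by
    rw [map_natCast]
    have h1 := congrArg (fun z : 𝓞 K => (z : K)) hs
    simpa using h1
  have hrk : finrank ℤ (𝓞 K) = 2 := by rw [RingOfIntegers.rank, hK]
  obtain ⟨b, -⟩ : ∃ b : Basis (Fin 2) ℤ (𝓞 K), True :=
    ⟨Module.finBasisOfFinrankEq ℤ (𝓞 K) hrk, trivial⟩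
  obtain ⟨v, hv⟩ : ∃ v : Fin 2 → 𝓞 K, v = ![1, s] := ⟨_, rfl⟩
  have h1 : Algebra.discr ℤ v = (b.toMatrix v).det ^ 2 * discr K := by
    rw [← NumberField.discr_eq_discr K b, ← Algebra.discr_of_matrix_vecMul, b.toMatrix_map_vecMul]
  refine ⟨(b.toMatrix v).det, ?_⟩
  rw [← h1, Algebra.discr_def, Matrix.det_fin_two]
  simp only [Algebra.traceMatrix_apply, Algebra.traceForm_apply]
  have hv0 : v 0 = 1 := by rw [hv]; rfl
  have hv1 : v 1 = s := by rw [hv]; rfl
  rw [hv0, hv1, mul_one, one_mul, mul_one]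
  have t0 : Algebra.trace ℤ (𝓞 K) (1 : 𝓞 K) = 2 := by
    have h2 := Algebra.coe_trace_int (1 : 𝓞 K)
    have h3 : ((1 : 𝓞 K) : K) = algebraMap ℚ K 1 := by simp
    rw [h3, Algebra.trace_algebraMap, hK] at h2
    have h4 : ((Algebra.trace ℤ (𝓞 K) (1 : 𝓞 K) : ℤ) : ℚ) = ((2 : ℤ) : ℚ) := by
      rw [h2]
      norm_num
    exact_mod_cast h4
  have t1 : Algebra.trace ℤ (𝓞 K) s = 0 := by
    have h2 := Algebra.coe_trace_int s
    rw [trace_root hK hr hs'] at h2
    exact_mod_cast h2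
  have t2 : Algebra.trace ℤ (𝓞 K) (s * s) = 2 * d := by
    have h2 := Algebra.coe_trace_int (s * s)
    have h3 : ((s * s : 𝓞 K) : K) = algebraMap ℚ K (d : ℚ) := by
      rw [← hs', sq]
      simp
    rw [h3, Algebra.trace_algebraMap, hK] at h2
    have h4 : ((Algebra.trace ℤ (𝓞 K) (s * s) : ℤ) : ℚ) = ((2 * d : ℤ) : ℚ) := by
      rw [h2]
      push_cast
      rw [nsmul_eq_mul]
      norm_num
    exact_mod_cast h4
  rw [t0, t1, t2]
  ring

end disc

theorem sq_dvd {f d : ℕ} (hd : Squarefree d) (h : f ^ 2 ∣ 4 * d) : f ≤ 2 := by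
  obtain ⟨g, hg⟩ : ∃ g, g = Nat.gcd f 2 := ⟨_, rfl⟩
  have hg0 : 0 < g := by
    rw [hg]
    exact Nat.gcd_pos_of_pos_right _ (by norm_num)
  obtain ⟨a, b, hco, ha, hb⟩ : ∃ a b, Nat.Coprime a b ∧ f = a * g ∧ 2 = b * g := by
    obtain ⟨a, b, h1, h2, h3⟩ := Nat.exists_coprime f 2
    exact ⟨a, b, h1, by rw [hg]; exact h2, by rw [hg]; exact h3⟩
  have h1 : a ^ 2 * g ^ 2 ∣ b ^ 2 * d * g ^ 2 := by
    have h2 : b ^ 2 * d * g ^ 2 = (b * g) ^ 2 * d := by ring
    rw [h2, ← hb, ← mul_pow, ← ha]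
    exact h
  have h2 : a ^ 2 ∣ b ^ 2 * d := Nat.dvd_of_mul_dvd_mul_right (by positivity) h1
  have h3 : a ^ 2 ∣ d := (Nat.Coprime.pow 2 2 hco).dvd_of_dvd_mul_left h2
  have h4 : a = 1 := by
    have := hd a (by rw [← sq]; exact h3)
    exact Nat.isUnit_iff.1 this
  have h5 : g ≤ 2 := by
    rw [hg]
    exact Nat.gcd_le_right _ (by norm_num)
  rw [ha, h4, one_mul]
  exact h5

theorem not_sq {d : ℕ} (hd : Squarefree d) (h1 : 1 < d) (x : ℚ) : x ^ 2 ≠ d := by
  intro hx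
  have h2 : IsSquare (d : ℚ) := ⟨x, by rw [← hx, sq]⟩
  rw [Rat.isSquare_natCast_iff] at h2
  obtain ⟨y, hy⟩ := h2
  have h3 := hd y (by rw [hy])
  rw [Nat.isUnit_iff] at h3
  rw [hy, h3] at h1
  omega

theorem im_zero {z : ℂ} {d : ℝ} (hd : 0 < d) (h : z ^ 2 = (d : ℂ)) : z.im = 0 := by
  have h1 := congrArg Complex.re h
  have h2 := congrArg Complex.im h
  rw [sq, Complex.mul_re, Complex.ofReal_re] at h1
  rw [sq, Complex.mul_im, Complex.ofReal_im] at h2
  have h3 : z.re * z.im = 0 := by linarith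
  rcases mul_eq_zero.1 h3 with h4 | h4
  · rw [h4] at h1
    nlinarith [mul_self_nonneg z.im]
  · exact h4

theorem totReal {K : Type} [Field K] [NumberField K] (hK : finrank ℚ K = 2) {d : ℕ} {s : K}
    (hs : s ^ 2 = (d : K)) (hd0 : 0 < d) (hd : ∀ x : ℚ, x ^ 2 ≠ d) : IsTotallyReal K := by
  refine ⟨fun v => ?_⟩
  have hr : ∀ x : ℚ, algebraMap ℚ K x ≠ s := by
    intro x hx
    apply hd x
    apply (algebraMap ℚ K).injective
    rw [map_pow, hx, map_natCast, hs]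
  rw [isReal_iff, ComplexEmbedding.isReal_iff]
  apply RingHom.ext
  intro z
  rw [ComplexEmbedding.conjugate_coe_eq]
  obtain ⟨a, b, hz⟩ := quad_span hK hr z
  have h1 : (v.embedding s) ^ 2 = ((d : ℝ) : ℂ) := by
    rw [← map_pow, hs, map_natCast, Complex.ofReal_natCast]
  have h2 : (v.embedding s).im = 0 := im_zero (by exact_mod_cast hd0) h1
  have h3 : (starRingEnd ℂ) (v.embedding s) = v.embedding s := Complex.conj_eq_iff_im.2 h2
  have h4 : ∀ x : ℚ, (starRingEnd ℂ) (v.embedding (algebraMap ℚ K x)) =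
      v.embedding (algebraMap ℚ K x) := by
    intro x
    have h5 : v.embedding (algebraMap ℚ K x) = (x : ℂ) := by
      rw [eq_ratCast, map_ratCast]
    rw [h5, map_ratCast]
  rw [hz, map_add, map_mul, map_add, map_mul, h3, h4, h4]

theorem pos_of_totReal {K : Type} [Field K] [NumberField K] [IsTotallyReal K] {a : ℚ} {s : K}
    (hs : s ^ 2 = algebraMap ℚ K a) : 0 ≤ a := by
  obtain ⟨v⟩ : Nonempty (InfinitePlace K) := inferInstance
  have hv : v.IsReal := IsTotallyReal.isReal v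
  have h1 : (embedding_of_isReal hv s) ^ 2 = (a : ℝ) := by
    rw [← map_pow, hs, eq_ratCast, map_ratCast]
  have h2 : (0 : ℝ) ≤ (a : ℝ) := by
    rw [← h1]
    exact sq_nonneg _
  exact_mod_cast h2

/-- QRF -/
theorem qrf : QrfStmt := by
  obtain ⟨q1, q2, q3⟩ := qua ℚ
  constructor
  · intro k hk _ htr
    obtain ⟨a, ha, rfl⟩ := q1 k hk
    obtain ⟨-, -, r, hr⟩ := q2 a ha
    have ha0 : 0 ≤ a := pos_of_totReal hr
    have hane : a ≠ 0 := fun h => ha 0 (by rw [h]; norm_num)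
    have hapos : 0 < a := lt_of_le_of_ne ha0 (Ne.symm hane)
    obtain ⟨n, hn⟩ : ∃ n : ℕ, (n : ℚ) = a * (a.den : ℚ) ^ 2 := by
      have h1 : a * (a.den : ℚ) = a.num := Rat.mul_den_eq_num a
      have h2 : 0 < a.num := Rat.num_pos.2 hapos
      refine ⟨a.num.toNat * a.den, ?_⟩
      have h3 : ((a.num.toNat : ℕ) : ℚ) = (a.num : ℚ) := by
        have h4 : ((a.num.toNat : ℕ) : ℤ) = a.num := Int.toNat_of_nonneg h2.le
        exact_mod_cast congrArg (fun z : ℤ => (z : ℚ)) h4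
      rw [Nat.cast_mul, h3, ← h1]
      ring
    obtain ⟨d, b, hbd, hsq⟩ := Nat.sq_mul_squarefree n
    have hden : (a.den : ℚ) ≠ 0 := by exact_mod_cast a.den_nz
    have hn0 : (n : ℚ) ≠ 0 := by
      rw [hn]
      exact mul_ne_zero hane (pow_ne_zero _ hden)
    have hb0 : (b : ℚ) ≠ 0 := by
      intro hb
      apply hn0
      have hb' : b = 0 := by exact_mod_cast hb
      rw [← hbd, hb']
      norm_num
    have hd : (d : ℚ) = ((a.den : ℚ) / b) ^ 2 * a := by
      have h5 : (b : ℚ) ^ 2 * (d : ℚ) = (n : ℚ) := by exact_mod_cast congrArg (fun z : ℕ => (z : ℚ)) hbd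
      rw [hn] at h5
      field_simp
      linear_combination h5
    have hdn : ∀ x : ℚ, x ^ 2 ≠ (d : ℚ) := by
      intro x hx
      apply ha (x * b / a.den)
      rw [div_pow, mul_pow, hx, hd]
      field_simp
    refine ⟨d, hsq, ?_, ?_⟩
    · rcases Nat.lt_or_ge 1 d with h | h
      · exact h
      · exfalso
        interval_cases d
        · exact not_squarefree_zero hsq
        · exact hdn 1 (by norm_num)
    · exact (q3 a d ha hdn).2 ⟨_, hd⟩
  · intro d hsq hd1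
    have hdn : ∀ x : ℚ, x ^ 2 ≠ (d : ℚ) := not_sq hsq hd1
    obtain ⟨hnf, hfr, r, hr⟩ := q2 d hdn
    have hr' : r ^ 2 = ((d : ℕ) : sqF (d : ℚ)) := by rw [hr, map_natCast]
    have hint : IsIntegral ℤ r := by
      refine IsIntegral.of_pow (n := 2) (by norm_num) ?_
      rw [hr']
      exact isIntegral_algebraMap (R := ℤ) (A := sqF (d : ℚ)) (x := (d : ℤ)) |> fun h => by simpa using h
    obtain ⟨s, hs⟩ : ∃ s : 𝓞 (sqF (d : ℚ)), (s : sqF (d : ℚ)) = r := ⟨⟨r, hint⟩, rfl⟩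
    have hs2 : s ^ 2 = (d : 𝓞 (sqF (d : ℚ))) := by
      apply RingOfIntegers.coe_injective
      rw [map_pow, map_natCast]
      change (s : sqF (d : ℚ)) ^ 2 = _
      rw [hs, hr']
    obtain ⟨f, hf⟩ := discr_quad hfr d s hs2 hdn
    have hd0 : (0 : ℤ) < 4 * (d : ℤ) := by positivity
    have hf0 : f ≠ 0 := by
      rintro rfl
      rw [zero_pow two_ne_zero, zero_mul] at hf
      omega
    have hf1 : 1 ≤ f ^ 2 := by
      have := Int.natAbs_pos.2 hf0
      rw [← Int.natAbs_sq]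
      exact_mod_cast Nat.one_le_pow _ _ this
    have hD0 : 0 < discr (sqF (d : ℚ)) := by
      by_contra hcon
      push Not at hcon
      nlinarith [mul_nonpos_of_nonneg_of_nonpos (sq_nonneg f) hcon]
    have hf4 : f ^ 2 ≤ 4 := by
      have h1 : f.natAbs ^ 2 ∣ 4 * d := by
        have h2 : (f ^ 2).natAbs ∣ (4 * (d : ℤ)).natAbs := Int.natAbs_dvd_natAbs.2 ⟨_, hf⟩
        rwa [Int.natAbs_pow, Int.natAbs_mul, Int.natAbs_natCast] at h2
      have h2 := sq_dvd hsq h1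
      rw [← Int.natAbs_sq]
      have h3 : f.natAbs ^ 2 ≤ 2 ^ 2 := Nat.pow_le_pow_left h2 2
      exact_mod_cast h3
    refine ⟨hnf, hfr, ?_, ?_, ?_, s, hs2⟩
    · exact @totReal (sqF (d : ℚ)) _ hnf hfr d r hr' (by omega) hdn
    · change (d : ℤ) ≤ discr (sqF (d : ℚ))
      nlinarith
    · change discr (sqF (d : ℚ)) ≤ 4 * d
      nlinarith

end Pool.Agent.LeoD.H90
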