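import Pool.Agent.LeoD.QuarStmts
import Pool.Agent.Helper90_LeoD.Qua

/-! QXB: the number of quadratic extensions of bounded discriminant. -/

set_option autoImplicit false

open NumberField NumberField.InfinitePlace IsDedekindDomain Module nonZeroDivisors

namespace Pool.Agent.LeoD.H90

section units

theorem zpow_mod_sq {G : Type} [CommGroup G] (g : G) (n : ℤ) :
    ∃ (b : Bool) (h : G), g ^ n = (if b then g else 1) * h ^ 2 := by
  rcases Int.even_or_odd' n with ⟨m, hm | hm⟩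
  · refine ⟨false, g ^ m, ?_⟩
    rw [hm, if_neg (by decide), one_mul, ← zpow_natCast, ← zpow_mul]
    congr 1
    push_cast
    ring
  · refine ⟨true, g ^ m, ?_⟩
    rw [hm, if_pos rfl, ← zpow_natCast, ← zpow_mul, ← zpow_one_add]
    congr 1
    push_cast
    ring

variable (k : Type) [Field k] [NumberField k]

/-- the units modulo squares -/
theorem exists_units : ∃ (f : Bool × (Fin (NumberField.Units.rank k) → Bool) → (𝓞 k)ˣ),
    ∀ x : (𝓞 k)ˣ, ∃ (b : Bool × (Fin (NumberField.Units.rank k) → Bool)) (u : (𝓞 k)ˣ),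
      x = f b * u ^ 2 := by
  classical
  obtain ⟨g, hg⟩ := IsCyclic.exists_generator (α := NumberField.Units.torsion k)
  refine ⟨fun b => (if b.1 then (g : (𝓞 k)ˣ) else 1) *
    ∏ i, (if b.2 i then NumberField.Units.fundSystem k i else 1), fun x => ?_⟩
  obtain ⟨⟨ζ, e⟩, hx, -⟩ := NumberField.Units.exist_unique_eq_mul_prod k x
  obtain ⟨n, hn⟩ := Subgroup.mem_zpowers_iff.1 (hg ζ)
  obtain ⟨b0, h0, hb0⟩ := zpow_mod_sq (g : (𝓞 k)ˣ) n
  choose b h hb using fun i => zpow_mod_sq (NumberField.Units.fundSystem k i) (e i)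
  refine ⟨(b0, b), h0 * ∏ i, h i, ?_⟩
  have h1 : (ζ : (𝓞 k)ˣ) = (g : (𝓞 k)ˣ) ^ n := by rw [← hn]; rfl
  change x = (ζ : (𝓞 k)ˣ) * ∏ i, NumberField.Units.fundSystem k i ^ e i at hx
  rw [hx, h1, hb0, Finset.prod_congr rfl fun i _ => hb i, Finset.prod_mul_distrib, mul_pow,
    Finset.prod_pow]
  exact mul_mul_mul_comm _ _ _ _

end units

theorem card_classes {k : Type} [Field k] [NumberField k] {J : Type} [Fintype J] (cc : J → Ideal (𝓞 k))
    (hne : ∀ j, cc j ≠ ⊥)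
    (huni : ∀ I : Ideal (𝓞 k), I ≠ ⊥ → ∃! j : J, ∃ α β : 𝓞 k, α ≠ 0 ∧ β ≠ 0 ∧
      Ideal.span {α} * I = Ideal.span {β} * cc j) :
    Fintype.card J ≤ Fintype.card (ClassGroup (𝓞 k)) := by
  classical
  refine Fintype.card_le_of_injective
    (fun j => ClassGroup.mk0 ⟨cc j, mem_nonZeroDivisors_of_ne_zero (hne j)⟩) ?_
  intro j j' h
  obtain ⟨x, y, hx, hy, h1⟩ := ClassGroup.mk0_eq_mk0_iff.1 h
  exact (huni (cc j) (hne j)).unique ⟨1, 1, one_ne_zero, one_ne_zero, rfl⟩ ⟨x, y, hx, hy, h1⟩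

/-- QXB -/
theorem qxb (rps : RpsStmt) (prm : PrmStmt) (dsk : DskStmt) (fnb : FnbStmt) : QxbStmt := by
  classical
  intro k _ _ N X
  obtain ⟨J, _, B, -, hB, hJ⟩ := rps k
  obtain ⟨p1, -⟩ := prm k J B hJ
  obtain ⟨-, f2, -⟩ := fnb k
  obtain ⟨q1, q2, q3⟩ := qua k
  obtain ⟨f, hf⟩ := exists_units k
  obtain ⟨S, hS⟩ : ∃ S : Set (Ideal (𝓞 k)), S = {I : Ideal (𝓞 k) | I ≠ ⊥ ∧
        ((discr k).natAbs : ℝ) ^ 2 * (Ideal.absNorm I : ℝ) ≤ X} := ⟨_, rfl⟩
  have hd1 : (1 : ℝ) ≤ ((discr k).natAbs : ℝ) ^ 2 := by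
    have h1 : 1 ≤ (discr k).natAbs := Int.natAbs_pos.2 (discr_ne_zero k)
    have h2 : (1 : ℝ) ≤ ((discr k).natAbs : ℝ) := by exact_mod_cast h1
    nlinarith
  have hSf : S.Finite := by
    refine (Ideal.finite_setOfPred_absNorm_le (S := 𝓞 k) ⌊X⌋₊).subset ?_
    intro I hI
    rw [hS] at hI
    obtain ⟨-, h2⟩ := hI
    have h3 : (Ideal.absNorm I : ℝ) ≤ X := by
      refine le_trans ?_ h2
      have h4 : (0 : ℝ) ≤ (Ideal.absNorm I : ℝ) := Nat.cast_nonneg _
      nlinarith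
    exact Nat.le_floor h3
  rw [← hS]
  have hSf' : Finite S := hSf.to_subtype
  obtain ⟨m0, hm0⟩ : ∃ m0 : J → Ideal (𝓞 k) → 𝓞 k, ∀ (j : J) (A : Ideal (𝓞 k)) (m : 𝓞 k),
      Ideal.span {m} = (B j).cc ^ 2 * A → Ideal.span {m0 j A} = (B j).cc ^ 2 * A := by
    refine ⟨fun j A => if h : ∃ m : 𝓞 k, Ideal.span {m} = (B j).cc ^ 2 * A then h.choose else 0,
      fun j A m hm => ?_⟩
    have h : ∃ m : 𝓞 k, Ideal.span {m} = (B j).cc ^ 2 * A := ⟨m, hm⟩
    simp only [dif_pos h]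
    exact h.choose_spec
  obtain ⟨Φ, hΦ⟩ : ∃ Φ : J × S × (Bool × (Fin (NumberField.Units.rank k) → Bool)) →
      IntermediateField k (AlgebraicClosure k), ∀ t, Φ t =
        sqF (-(((f t.2.2 : 𝓞 k) * m0 t.1 t.2.1 : 𝓞 k) : k)) := ⟨_, fun t => rfl⟩
  have hsub : Qx k N X ⊆ Set.range Φ := by
    rintro K ⟨hnf, hq, hdK⟩
    obtain ⟨a, ha, rfl⟩ := q1 K hq.quad
    have ha0 : a ≠ 0 := fun h => ha 0 (by rw [h]; norm_num)
    obtain ⟨j, m, t, ht, hmt, hfund⟩ := p1 (-a) (neg_ne_zero.2 ha0)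
    obtain ⟨-, hmne, hmem, -⟩ := f2 _ _ hfund
    have hns : ∀ x : k, x ^ 2 ≠ -(m : k) := by
      intro x hx
      apply ha (x / t)
      rw [div_pow, hx, hmt]
      field_simp
    have hKm : sqF a = sqF (-(m : k)) := (q3 a (-(m : k)) ha hns).2 ⟨t, by rw [hmt]; ring⟩
    obtain ⟨A, hA⟩ : (B j).cc ^ 2 ∣ Ideal.span {m} := by
      rw [Ideal.dvd_iff_le, Ideal.span_singleton_le_iff_mem]
      exact hmem
    have hAne : A ≠ ⊥ := by
      rintro rfl
      rw [Ideal.mul_bot, Ideal.span_singleton_eq_bot] at hA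
      exact hmne hA
    have hAS : A ∈ S := by
      rw [hS]
      refine ⟨hAne, ?_⟩
      obtain ⟨-, -, r, hr⟩ := q2 a ha
      obtain ⟨s, hs⟩ : ∃ s : sqF a, s ^ 2 = algebraMap k (sqF a) ((-m : 𝓞 k) : k) := by
        refine ⟨algebraMap k (sqF a) t * r, ?_⟩
        rw [mul_pow, hr, ← map_pow, ← map_mul]
        congr 1
        have h1 : ((-m : 𝓞 k) : k) = -(m : k) := by simp
        rw [h1, hmt]
        ring
      have hns' : ∀ x : k, x ^ 2 ≠ ((-m : 𝓞 k) : k) := by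
        intro x hx
        apply hns x
        rw [hx]
        simp
      have h2 := dsk k (sqF a) (B j).cc (-m) s hq.quad hs hns' (by rw [neg_neg]; exact hfund)
      have h3 : (Algebra.norm ℤ (-m)).natAbs = Ideal.absNorm (B j).cc ^ 2 * Ideal.absNorm A := by
        rw [← Ideal.absNorm_span_singleton, Ideal.span_singleton_neg, hA, map_mul, map_pow]
      rw [h3] at h2
      have h4 : Ideal.absNorm (B j).cc ≠ 0 := by
        rw [Ne, Ideal.absNorm_eq_zero_iff]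
        exact (hB j).1
      have h5 : (discr (sqF a)).natAbs = (discr k).natAbs ^ 2 * Ideal.absNorm A := by
        apply Nat.eq_of_mul_eq_mul_right (pow_pos (Nat.pos_of_ne_zero h4) 2)
        rw [h2]
        ring
      rw [h5] at hdK
      exact_mod_cast hdK
    have hsp : Ideal.span {m0 j A} = Ideal.span {m} := by rw [hm0 j A m hA, hA]
    obtain ⟨η, hη⟩ := Ideal.span_singleton_eq_span_singleton.1 hsp
    obtain ⟨b, u, hbu⟩ := hf η
    refine ⟨(j, ⟨A, hAS⟩, b), ?_⟩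
    rw [hΦ, hKm]
    change sqF (-(((f b : 𝓞 k) * m0 j A : 𝓞 k) : k)) = _
    have h6 : (-(m : k)) = ((u : 𝓞 k) : k) ^ 2 * (-(((f b : 𝓞 k) * m0 j A : 𝓞 k) : k)) := by
      rw [← hη, hbu]
      push_cast
      ring
    have hu0 : ((u : 𝓞 k) : k) ≠ 0 := by
      simp
    refine (q3 _ _ ?_ hns).2 ⟨_, h6⟩
    intro x hx
    apply hns (((u : 𝓞 k) : k) * x)
    rw [h6, mul_pow, hx]
  have hcard : Nat.card (J × S × (Bool × (Fin (NumberField.Units.rank k) → Bool))) ≤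
      2 ^ (nrRealPlaces k + nrComplexPlaces k) * Fintype.card (ClassGroup (𝓞 k)) * S.ncard := by
    rw [Nat.card_prod, Nat.card_prod, Nat.card_prod, Nat.card_eq_fintype_card (α := J),
      Nat.card_coe_set_eq, Nat.card_eq_fintype_card (α := Bool), Fintype.card_bool,
      Nat.card_eq_fintype_card, Fintype.card_fun, Fintype.card_bool, Fintype.card_fin]
    have h1 : 2 * 2 ^ (NumberField.Units.rank k) = 2 ^ (nrRealPlaces k + nrComplexPlaces k) := by
      rw [← pow_succ', ← card_eq_nrRealPlaces_add_nrComplexPlaces]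
      congr 1
      unfold NumberField.Units.rank
      have : 0 < Fintype.card (InfinitePlace k) := Fintype.card_pos
      omega
    rw [h1]
    have h2 := card_classes (fun j => (B j).cc) (fun j => (hB j).1) hJ
    calc Fintype.card J * (S.ncard * 2 ^ (nrRealPlaces k + nrComplexPlaces k))
        = 2 ^ (nrRealPlaces k + nrComplexPlaces k) * Fintype.card J * S.ncard := by ring
      _ ≤ _ := by gcongr
  refine ⟨(Set.finite_range Φ).subset hsub, ?_⟩
  refine le_trans (Set.ncard_le_ncard hsub (Set.finite_range Φ)) (le_trans ?_ hcard)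
  rw [← Nat.card_coe_set_eq]
  exact Finite.card_range_le Φ

end Pool.Agent.LeoD.H90
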